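import Mathlib

/-!
# Definitions: fat minors, asymptotic dimension of a class of graphs, doubling graphs
-/

namespace Pool.Agent.MP_fd1949_co

/-- `Near G ρ x y` : the distance of `x` and `y` in `G` is at most `ρ`, that is, there is a walk
from `x` to `y` with at most `ρ` edges. (The distance is infinite between components.) -/
def Near {V : Type} (G : SimpleGraph V) (ρ : ℝ) (x y : V) : Prop :=
  ∃ w : G.Walk x y, (w.length : ℝ) ≤ ρ

/-- `Far G q X Y` : the distance in `G` between the sets `X` and `Y` is at least `q`. -/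
def Far {V : Type} (G : SimpleGraph V) (q : ℕ) (X Y : Set V) : Prop :=
  ∀ x ∈ X, ∀ y ∈ Y, ∀ w : G.Walk x y, q ≤ w.length

/-- `IsFatMinor G H q B P` : the vertex sets `B v` (for the vertices `v` of `H`) and `P e` (for the
edges `e` of `H`) form a `q`-fat `H`-minor in `G`. Each `B v` induces a connected subgraph; for an
edge `uv` of `H`, the set `P s(u, v)` is the vertex set of a path of `G` with one end in `B u` and
the other end in `B v`; two different members of the family are at distance at least `q`, except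
that no condition is put on `P e` and `B v` when `v` is an end of `e`. -/
structure IsFatMinor {V W : Type} (G : SimpleGraph V) (H : SimpleGraph W) (q : ℕ)
    (B : W → Set V) (P : Sym2 W → Set V) : Prop where
  conn : ∀ v, (G.induce (B v)).Connected
  path : ∀ u v, H.Adj u v → ∃ x ∈ B u, ∃ y ∈ B v, ∃ p : G.Walk x y, p.IsPath ∧
    P s(u, v) = {z | z ∈ p.support}
  farBB : ∀ u v, u ≠ v → Far G q (B u) (B v)
  farPP : ∀ e ∈ H.edgeSet, ∀ e' ∈ H.edgeSet, e ≠ e' → Far G q (P e) (P e')
  farPB : ∀ e ∈ H.edgeSet, ∀ v, v ∉ e → Far G q (P e) (B v)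

/-- `G` contains no `q`-fat `H`-minor. -/
def FatMinorFree {V W : Type} (G : SimpleGraph V) (H : SimpleGraph W) (q : ℕ) : Prop :=
  ¬ ∃ B P, IsFatMinor G H q B P

/-- `G` is doubling with constant `K` from the scale `R₀` on: for `R ≥ R₀` every ball of radius
`2 * R` is covered by `K` balls of radius `R`. -/
def DoublingFrom {V : Type} (G : SimpleGraph V) (K : ℕ) (R₀ : ℝ) : Prop :=
  ∀ R : ℝ, R₀ ≤ R → ∀ x : V, ∃ s : Finset V, s.card ≤ K ∧
    ∀ y, Near G (2 * R) x y → ∃ z ∈ s, Near G R z y

/-- The family `𝒰` of vertex sets is `r`-disjoint: points of different members are at distance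
greater than `r`. -/
def Disj {V : Type} (G : SimpleGraph V) (r : ℝ) (𝒰 : Set (Set V)) : Prop :=
  ∀ A ∈ 𝒰, ∀ B ∈ 𝒰, A ≠ B → ∀ x ∈ A, ∀ y ∈ B, ¬ Near G r x y

/-- The family `𝒰` of vertex sets is `D`-bounded: every member has diameter at most `D`, measured
in `G`. -/
def Bdd {V : Type} (G : SimpleGraph V) (D : ℝ) (𝒰 : Set (Set V)) : Prop :=
  ∀ A ∈ 𝒰, ∀ x ∈ A, ∀ y ∈ A, Near G D x y

/-- The class `𝒞` of finite graphs has asymptotic dimension at most `d`, with the function
`D : ℝ → ℝ` as a witness: for every graph of the class and every `r > 0` the vertex set is covered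
by `d + 1` families, each of them `r`-disjoint and `D r`-bounded. -/
def AsdimWith (𝒞 : ∀ V : Type, SimpleGraph V → Prop) (d : ℕ) (D : ℝ → ℝ) : Prop :=
  ∀ (V : Type) [Finite V] (G : SimpleGraph V), 𝒞 V G → ∀ r : ℝ, 0 < r →
    ∃ 𝒰 : Fin (d + 1) → Set (Set V),
      (∀ x, ∃ i, ∃ A ∈ 𝒰 i, x ∈ A) ∧ ∀ i, Disj G r (𝒰 i) ∧ Bdd G (D r) (𝒰 i)

end Pool.Agent.MP_fd1949_co
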