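import Mathlib
import Pool.Agent.Lib.MP_fd1949_co.Defs

/-!
# Basic facts on distances in graphs
-/

namespace Pool.Agent.MP_fd1949_co

variable {V : Type} {G : SimpleGraph V}

lemma Near.refl {ρ : ℝ} (hρ : 0 ≤ ρ) (x : V) : Near G ρ x x := ⟨.nil, by simpa⟩

lemma Near.symm {ρ : ℝ} {x y : V} : Near G ρ x y → Near G ρ y x :=
  fun ⟨w, h⟩ => ⟨w.reverse, by simpa⟩

lemma Near.trans {a b : ℝ} {x y z : V} : Near G a x y → Near G b y z → Near G (a + b) x z := by
  rintro ⟨w, h⟩ ⟨w', h'⟩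
  exact ⟨w.append w', by rw [SimpleGraph.Walk.length_append]; push_cast; linarith⟩

lemma Near.mono {a b : ℝ} {x y : V} (hab : a ≤ b) : Near G a x y → Near G b x y :=
  fun ⟨w, h⟩ => ⟨w, h.trans hab⟩

lemma Near.reachable {a : ℝ} {x y : V} : Near G a x y → G.Reachable x y := fun ⟨w, _⟩ => ⟨w⟩

lemma near_iff {ρ : ℝ} {x y : V} : Near G ρ x y ↔ G.Reachable x y ∧ (G.dist x y : ℝ) ≤ ρ := by
  constructor
  · rintro ⟨w, h⟩
    refine ⟨⟨w⟩, le_trans ?_ h⟩
    exact_mod_cast SimpleGraph.dist_le w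
  · rintro ⟨hr, h⟩
    obtain ⟨w, hw⟩ := hr.exists_walk_length_eq_dist
    exact ⟨w, by rw [hw]; exact h⟩

lemma Near.dist_le {ρ : ℝ} {x y : V} (h : Near G ρ x y) : (G.dist x y : ℝ) ≤ ρ :=
  (near_iff.1 h).2

lemma dist_tri_nat {x y z : V} (hxy : G.Reachable x y) (hyz : G.Reachable y z) :
    G.dist x z ≤ G.dist x y + G.dist y z := by
  obtain ⟨p, hp⟩ := hxy.exists_walk_length_eq_dist
  obtain ⟨q, hq⟩ := hyz.exists_walk_length_eq_dist
  rw [← hp, ← hq, ← SimpleGraph.Walk.length_append]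
  exact SimpleGraph.dist_le _

lemma dist_tri {x y z : V} (hxy : G.Reachable x y) (hyz : G.Reachable y z) :
    (G.dist x z : ℝ) ≤ G.dist x y + G.dist y z := by
  exact_mod_cast dist_tri_nat hxy hyz

/-- The initial part, of length `k`, of a shortest walk. -/
lemma exists_geo {x y : V} (h : G.Reachable x y) (k : ℕ) (hk : k ≤ G.dist x y) :
    ∃ z, ∃ w : G.Walk x z, w.length = k ∧ G.dist z y + k = G.dist x y ∧
      ∀ u ∈ w.support, G.Reachable x u ∧ G.dist x u ≤ k ∧
        G.dist x u + G.dist u y = G.dist x y := by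
  obtain ⟨p, hp⟩ := h.exists_walk_length_eq_dist
  have key : ∀ i ≤ p.length, G.dist x (p.getVert i) = i ∧
      G.dist (p.getVert i) y + i = G.dist x y := by
    intro i hi
    have h1 : G.dist x (p.getVert i) ≤ i := by
      have := SimpleGraph.dist_le (p.take i)
      rw [SimpleGraph.Walk.take_length] at this
      exact this.trans (min_le_left _ _)
    have h2 : G.dist (p.getVert i) y ≤ p.length - i := by
      have := SimpleGraph.dist_le (p.drop i)
      rwa [SimpleGraph.Walk.drop_length] at this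
    have h3 := dist_tri_nat (G := G) ⟨p.take i⟩ ⟨p.drop i⟩
    omega
  refine ⟨p.getVert k, p.take k, ?_, (key k (by omega)).2, ?_⟩
  · rw [SimpleGraph.Walk.take_length]
    omega
  · intro u hu
    obtain ⟨i, hi, hi'⟩ := SimpleGraph.Walk.mem_support_iff_exists_getVert.1 hu
    rw [SimpleGraph.Walk.take_getVert] at hi
    rw [SimpleGraph.Walk.take_length] at hi'
    have hki : min k i = i := by omega
    rw [hki] at hi
    subst hi
    have := key i (by omega)
    exact ⟨⟨p.take i⟩, by omega, by omega⟩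

/-- Every vertex of a shortest walk is close to one of the ends. -/
lemma exists_short {ρ : ℝ} {x y : V} (h : Near G ρ x y) :
    ∃ w : G.Walk x y, ∀ u ∈ w.support, Near G ρ x u := by
  obtain ⟨w, hw⟩ := h
  refine ⟨w, fun u hu => ?_⟩
  classical
  refine ⟨w.takeUntil u hu, le_trans ?_ hw⟩
  exact_mod_cast w.length_takeUntil_le_length hu

/-- A set in which every point is joined to a fixed one inside the set is connected. -/
lemma connected_of_walks {S : Set V} {x₀ : V} (hx₀ : x₀ ∈ S)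
    (h : ∀ x ∈ S, ∃ w : G.Walk x₀ x, ∀ u ∈ w.support, u ∈ S) : (G.induce S).Connected := by
  have : Nonempty S := ⟨⟨x₀, hx₀⟩⟩
  have key : ∀ x : S, (G.induce S).Reachable ⟨x₀, hx₀⟩ x := by
    rintro ⟨x, hx⟩
    obtain ⟨w, hw⟩ := h x hx
    exact ⟨w.induce S hw⟩
  exact ⟨fun a b => (key a).symm.trans (key b)⟩

end Pool.Agent.MP_fd1949_co
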