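import Mathlib
import Pool.Agent.Lib.MP_fd1949_co.Basic

/-!
# Sets that are small at a scale, unions, and the net lemma
-/

namespace Pool.Agent.MP_fd1949_co

open Relation

variable {V : Type} {G : SimpleGraph V}

/-- One step of length at most `r` inside one colour class of `X`. -/
def Step (G : SimpleGraph V) (r : ℝ) (X : Set V) (χ : V → ℕ) (u v : V) : Prop :=
  u ∈ X ∧ v ∈ X ∧ χ u = χ v ∧ Near G r u v

/-- `X` has a colouring with `k` colours whose monochromatic `r`-components have diameter at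
most `D`. -/
def Small (G : SimpleGraph V) (k : ℕ) (r D : ℝ) (X : Set V) : Prop :=
  ∃ χ : V → ℕ, (∀ x, χ x < k) ∧
    ∀ x y, x ∈ X → ReflTransGen (Step G r X χ) x y → Near G D x y

lemma chain_mem {r : ℝ} {X : Set V} {χ : V → ℕ} {x y : V} (hx : x ∈ X)
    (h : ReflTransGen (Step G r X χ) x y) : y ∈ X ∧ χ x = χ y := by
  induction h with
  | refl => exact ⟨hx, rfl⟩
  | tail _ h ih => exact ⟨h.2.1, ih.2.trans h.2.2.1⟩

lemma Small.mono {k : ℕ} {r r' D D' : ℝ} {X X' : Set V} (hr : r' ≤ r) (hD : D ≤ D')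
    (hX : X' ⊆ X) (h : Small G k r D X) : Small G k r' D' X' := by
  obtain ⟨χ, h1, h2⟩ := h
  refine ⟨χ, h1, fun x y hx hxy => (h2 x y (hX hx) ?_).mono hD⟩
  exact hxy.lift id fun u v huv => ⟨hX huv.1, hX huv.2.1, huv.2.2.1, huv.2.2.2.mono hr⟩

/-- The union theorem, in colouring form. -/
lemma Small.union {k : ℕ} {r D r' D' : ℝ} {A B : Set V} (hr : 0 ≤ r) (hD : 0 ≤ D) (hD' : 0 ≤ D')
    (hrr : D + 2 * r ≤ r') (hA : Small G k r D A) (hB : Small G k r' D' B) :
    Small G k r (D' + 2 * (D + r)) (A ∪ B) := by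
  classical
  obtain ⟨α, hα, hα'⟩ := hA
  obtain ⟨β, hβ, hβ'⟩ := hB
  set χ : V → ℕ := fun x => if x ∈ B then β x else α x with hχ
  have hχB : ∀ {x}, x ∈ B → χ x = β x := fun h => by simp [hχ, h]
  have hχA : ∀ {x}, x ∉ B → χ x = α x := fun h => by simp [hχ, h]
  refine ⟨χ, fun x => ?_, fun x y hx hxy => ?_⟩
  · by_cases h : x ∈ B
    · rw [hχB h]; exact hβ x
    · rw [hχA h]; exact hα x
  · have key : (χ y = χ x) ∧
        ((y ∉ B ∧ x ∈ A ∧ ReflTransGen (Step G r A α) x y) ∨
        (∃ b₀ b, b₀ ∈ B ∧ b ∈ B ∧ χ b = χ x ∧ Near G (D + r) x b₀ ∧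
          ReflTransGen (Step G r' B β) b₀ b ∧
          (y = b ∨ (y ∉ B ∧ ∃ a, a ∈ A ∧ Near G r b a ∧ ReflTransGen (Step G r A α) a y)))) := by
      clear_value χ
      induction hxy with
      | refl =>
        refine ⟨rfl, ?_⟩
        by_cases h : x ∈ B
        · exact Or.inr ⟨x, x, h, h, rfl, Near.refl (by linarith) x, .refl, Or.inl rfl⟩
        · refine Or.inl ⟨h, ?_, .refl⟩
          rcases hx with hx | hx
          · exact hx
          · exact absurd hx h
      | @tail y z _ hyz ih =>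
        obtain ⟨hcol, ih⟩ := ih
        obtain ⟨hy, hz, hc, hn⟩ := hyz
        refine ⟨hc.symm.trans hcol, ?_⟩
        have hzA : z ∉ B → z ∈ A := fun h => by
          rcases hz with hz | hz
          · exact hz
          · exact absurd hz h
        rcases ih with ⟨hyB, hxA, hch⟩ | ⟨b₀, b, hb₀, hb, hbc, hxb, hch, hrest⟩
        · have hyA : y ∈ A := (chain_mem hxA hch).1
          by_cases hzB : z ∈ B
          · refine Or.inr ⟨z, z, hzB, hzB, hc.symm.trans hcol, ?_, .refl, Or.inl rfl⟩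
            exact (hα' x y hxA hch).trans hn
          · refine Or.inl ⟨hzB, hxA, hch.tail ⟨hyA, hzA hzB, ?_, hn⟩⟩
            rw [← hχA hyB, ← hχA hzB]
            exact hc
        · rcases hrest with rfl | ⟨hyB, a, haA, hba, hay⟩
          · by_cases hzB : z ∈ B
            · refine Or.inr ⟨b₀, z, hb₀, hzB, hc.symm.trans hcol, hxb, hch.tail ⟨hb, hzB, ?_, ?_⟩,
                Or.inl rfl⟩
              · rw [← hχB hb, ← hχB hzB]
                exact hc
              · exact hn.mono (by linarith)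
            · exact Or.inr ⟨b₀, y, hb₀, hb, hbc, hxb, hch,
                Or.inr ⟨hzB, z, hzA hzB, hn, .refl⟩⟩
          · have hyA : y ∈ A := (chain_mem haA hay).1
            by_cases hzB : z ∈ B
            · refine Or.inr ⟨b₀, z, hb₀, hzB, hc.symm.trans hcol, hxb,
                hch.tail ⟨hb, hzB, ?_, ?_⟩, Or.inl rfl⟩
              · rw [← hχB hb, ← hχB hzB, hbc, ← hcol]
                exact hc
              · exact ((hba.trans (hα' a y haA hay)).trans hn).mono (by linarith)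
            · refine Or.inr ⟨b₀, b, hb₀, hb, hbc, hxb, hch,
                Or.inr ⟨hzB, a, haA, hba, hay.tail ⟨hyA, hzA hzB, ?_, hn⟩⟩⟩
              rw [← hχA hyB, ← hχA hzB]
              exact hc
    obtain ⟨-, ⟨-, hxA, hch⟩ | ⟨b₀, b, hb₀, hb, -, hxb, hch, hrest⟩⟩ := key
    · exact (hα' x y hxA hch).mono (by linarith)
    · have h1 := hxb.trans (hβ' b₀ b hb₀ hch)
      rcases hrest with rfl | ⟨-, a, haA, hba, hay⟩
      · exact h1.mono (by linarith)
      · exact ((h1.trans hba).trans (hα' a y haA hay)).mono (by linarith)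

/-- A union of far apart small sets is small. -/
lemma Small.iUnion {k : ℕ} {r D : ℝ} {Y : Set V} {S : V → Set V} (hk : 0 < k)
    (hfar : ∀ y ∈ Y, ∀ y' ∈ Y, ∀ x ∈ S y, ∀ x' ∈ S y', Near G r x x' → y = y')
    (hS : ∀ y ∈ Y, Small G k r D (S y)) : Small G k r D (⋃ y ∈ Y, S y) := by
  classical
  choose! χ h1 h2 using hS
  set c : V → V := fun x => if h : ∃ y ∈ Y, x ∈ S y then h.choose else x with hc
  have hc' : ∀ x, (∃ y ∈ Y, x ∈ S y) → c x ∈ Y ∧ x ∈ S (c x) := by
    intro x h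
    have : c x = h.choose := by simp only [hc]; rw [dif_pos h]
    rw [this]
    exact h.choose_spec
  refine ⟨fun x => if c x ∈ Y then χ (c x) x else 0, fun x => ?_, fun x y hx hxy => ?_⟩
  · dsimp only
    split_ifs with h
    · exact h1 _ h _
    · exact hk
  · have hx' : ∃ y ∈ Y, x ∈ S y := by simpa using hx
    obtain ⟨hcY, hcS⟩ := hc' x hx'
    have key : c y = c x ∧ y ∈ S (c x) ∧ ReflTransGen (Step G r (S (c x)) (χ (c x))) x y := by
      induction hxy with
      | refl => exact ⟨rfl, hcS, .refl⟩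
      | @tail y z _ hyz ih =>
        obtain ⟨ih1, ih2, ih3⟩ := ih
        obtain ⟨hy, hz, hcc, hn⟩ := hyz
        have hz' : ∃ y ∈ Y, z ∈ S y := by simpa using hz
        obtain ⟨hczY, hczS⟩ := hc' z hz'
        have heq : c x = c z := hfar _ hcY _ hczY y ih2 z hczS hn
        rw [← heq] at hczS
        refine ⟨heq.symm, hczS, ih3.tail ⟨ih2, hczS, ?_, hn⟩⟩
        dsimp only at hcc
        rw [ih1, ← heq, if_pos hcY, if_pos hcY] at hcc
        exact hcc
    exact h2 _ hcY x y hcS key.2.2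

/-- The points whose distance to `y` lies in `[t, t + r)`. -/
def Shell (G : SimpleGraph V) (y : V) (t r : ℝ) : Set V :=
  {x | G.Reachable x y ∧ t ≤ (G.dist x y : ℝ) ∧ (G.dist x y : ℝ) < t + r}

lemma Shell.mono {y : V} {t r r' : ℝ} (h : r ≤ r') : Shell G y t r ⊆ Shell G y t r' :=
  fun _ hx => ⟨hx.1, hx.2.1, by linarith [hx.2.2]⟩

end Pool.Agent.MP_fd1949_co
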