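import Mathlib
import Pool.Agent.Lib.MP_fd1949_co.Small

/-!
# Building a fat minor from parallel strands in a thin sphere
-/

namespace Pool.Agent.MP_fd1949_co

open Relation

variable {V : Type} {G : SimpleGraph V}

/-- The thickening of an `r`-connected set is connected. -/
lemma thick_connected {K : Set V} {r : ℝ} {x₀ : V} (hr : 0 ≤ r) (hx₀ : x₀ ∈ K)
    (h : ∀ x ∈ K, ReflTransGen (fun u v => u ∈ K ∧ v ∈ K ∧ Near G r u v) x₀ x) :
    (G.induce {z | ∃ x ∈ K, Near G r x z}).Connected := by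
  have h1 : ∀ x, ReflTransGen (fun u v => u ∈ K ∧ v ∈ K ∧ Near G r u v) x₀ x →
      ∃ w : G.Walk x₀ x, ∀ u ∈ w.support, u ∈ {z | ∃ x ∈ K, Near G r x z} := by
    intro x hx
    induction hx with
    | refl =>
      refine ⟨.nil, fun u hu => ?_⟩
      rw [SimpleGraph.Walk.support_nil, List.mem_singleton] at hu
      subst hu
      exact ⟨u, hx₀, Near.refl hr u⟩
    | @tail u v _ huv ih =>
      obtain ⟨w, hw⟩ := ih
      obtain ⟨w', hw'⟩ := exists_short huv.2.2
      refine ⟨w.append w', fun z hz => ?_⟩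
      rcases (SimpleGraph.Walk.mem_support_append_iff w w').1 hz with hz | hz
      · exact hw z hz
      · exact ⟨u, huv.1, hw' z hz⟩
  refine connected_of_walks (x₀ := x₀) ⟨x₀, hx₀, Near.refl hr x₀⟩ ?_
  rintro z ⟨x, hx, hn⟩
  obtain ⟨w, hw⟩ := h1 x (h x hx)
  obtain ⟨w', hw'⟩ := exists_short hn
  refine ⟨w.append w', fun u hu => ?_⟩
  rcases (SimpleGraph.Walk.mem_support_append_iff w w').1 hu with hu | hu
  · exact hw u hu
  · exact ⟨x, hx, hw' u hu⟩

theorem build_minor {W : Type} (H : SimpleGraph W) (q : ℕ) (y y' : V) (t r η ρ : ℝ)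
    (K : W → Set V) (tt : W → ℝ) (x₀ : W → V) (a b : W → Sym2 W → V)
    (hr : 0 < r) (hq : (q : ℝ) ≤ r) (hρr : 100 * r ≤ ρ) (hηρ : 16 * ρ ≤ η)
    (hK : ∀ v, ∀ x ∈ K v, (G.Reachable x y ∧ t ≤ (G.dist x y : ℝ) ∧ (G.dist x y : ℝ) < t + r) ∧
      (G.Reachable x y' ∧ tt v ≤ (G.dist x y' : ℝ) ∧ (G.dist x y' : ℝ) < tt v + r))
    (htt : ∀ u v, u ≠ v → 100 * r ≤ |tt u - tt v|)
    (hx₀ : ∀ v, x₀ v ∈ K v)
    (hchain : ∀ v, ∀ x ∈ K v,
      ReflTransGen (fun u w => u ∈ K v ∧ w ∈ K v ∧ Near G r u w) (x₀ v) x)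
    (ha : ∀ v e, a v e ∈ K v)
    (hae : ∀ v e e', e ≠ e' → ¬ Near G (8 * η) (a v e) (a v e'))
    (haa : ∀ u v e, Near G ρ (a u e) (a v e))
    (hbb : ∀ u v e, Near G ρ (b u e) (b v e))
    (hby : ∀ v e, (G.dist (b v e) y : ℝ) + η ≤ G.dist (a v e) y)
    (hw : ∀ v e, ∃ w : G.Walk (a v e) (b v e), ∀ z ∈ w.support, G.Reachable (a v e) z ∧
      (G.dist (a v e) z : ℝ) ≤ 2 * η ∧
      (G.dist (a v e) z : ℝ) + G.dist z y = G.dist (a v e) y) :
    ∃ B P, IsFatMinor G H q B P := by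
  have hay : ∀ v e, G.Reachable (a v e) y := fun v e => (hK v _ (ha v e)).1.1
  -- the sets for the edges
  have hP : ∀ e : Sym2 W, ∃ S : Set V,
      (∀ u v, e = s(u, v) → ∃ p : G.Walk (a u e) (a v e), p.IsPath ∧ S = {z | z ∈ p.support}) ∧
      ∀ z ∈ S, G.Reachable z y ∧ ∃ u ∈ e, Near G (3 * η) (a u e) z ∧
        (Near G (4 * r) (a u e) z ∨ (G.dist z y : ℝ) ≤ t - 3 * r) := by
    intro e
    induction e using Sym2.ind with
    | _ u v =>
    classical
    obtain ⟨w₁, h₁⟩ := hw u s(u, v)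
    obtain ⟨w₂, h₂⟩ := exists_short (hbb u v s(u, v))
    obtain ⟨w₃, h₃⟩ := hw v s(u, v)
    have leg : ∀ c : W, c ∈ s(u, v) → ∀ w : G.Walk (a c s(u, v)) (b c s(u, v)),
        (∀ z ∈ w.support, G.Reachable (a c s(u, v)) z ∧
        (G.dist (a c s(u, v)) z : ℝ) ≤ 2 * η ∧
        (G.dist (a c s(u, v)) z : ℝ) + G.dist z y = G.dist (a c s(u, v)) y) →
        ∀ z ∈ w.support, G.Reachable z y ∧ ∃ u' ∈ s(u, v), Near G (3 * η) (a u' s(u, v)) z ∧
        (Near G (4 * r) (a u' s(u, v)) z ∨ (G.dist z y : ℝ) ≤ t - 3 * r) := by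
      intro c hc w hw z hz
      obtain ⟨g1, g2, g3⟩ := hw z hz
      refine ⟨g1.symm.trans (hay c _), c, hc, near_iff.2 ⟨g1, by linarith⟩, ?_⟩
      by_cases h : (G.dist (a c s(u, v)) z : ℝ) ≤ 4 * r
      · exact Or.inl (near_iff.2 ⟨g1, h⟩)
      · right
        push Not at h
        have := (hK c _ (ha c s(u, v))).1.2.2
        linarith
    set p : G.Walk (a u s(u, v)) (a v s(u, v)) := (w₁.append (w₂.append w₃.reverse)).bypass with hp
    refine ⟨{z | z ∈ p.support}, ?_, ?_⟩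
    · intro u' v' huv
      rcases Sym2.eq_iff.1 huv with ⟨rfl, rfl⟩ | ⟨rfl, rfl⟩
      · exact ⟨p, SimpleGraph.Walk.bypass_isPath _, rfl⟩
      · refine ⟨p.reverse, (SimpleGraph.Walk.bypass_isPath _).reverse, ?_⟩
        ext z
        simp [SimpleGraph.Walk.support_reverse]
    · intro z hz
      have hz' := SimpleGraph.Walk.support_bypass_subset_support _ hz
      rcases (SimpleGraph.Walk.mem_support_append_iff _ _).1 hz' with hz' | hz'
      · exact leg u (Sym2.mem_mk_left u v) w₁ h₁ z hz'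
      rcases (SimpleGraph.Walk.mem_support_append_iff _ _).1 hz' with hz' | hz'
      · have g := h₂ z hz'
        have hb1 := (h₁ _ w₁.end_mem_support)
        have hby' : G.Reachable (b u s(u, v)) y := hb1.1.symm.trans (hay u _)
        have hzy : G.Reachable z y := g.symm.reachable.trans hby'
        refine ⟨hzy, u, Sym2.mem_mk_left u v, ?_, Or.inr ?_⟩
        · exact ((near_iff.2 ⟨hb1.1, hb1.2.1⟩ : Near G (2 * η) _ _).trans g).mono (by linarith)
        · have k1 := dist_tri (G := G) g.symm.reachable hby'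
          have k2 := g.symm.dist_le
          have k3 := hby u s(u, v)
          have k4 := (hK u _ (ha u s(u, v))).1.2.2
          linarith
      · rw [SimpleGraph.Walk.support_reverse, List.mem_reverse] at hz'
        exact leg v (Sym2.mem_mk_right u v) w₃ h₃ z hz'
  choose P hP1 hP2 using hP
  set B : W → Set V := fun v => {z | ∃ x ∈ K v, Near G r x z} with hB
  have hsub : ∀ v, K v ⊆ B v := fun v x hx => ⟨x, hx, Near.refl hr.le x⟩
  -- points of different strands are far apart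
  have hfarK : ∀ u v, u ≠ v → ∀ x ∈ K u, ∀ z ∈ K v, ¬ Near G (50 * r) x z := by
    intro u v huv x hx z hz hn
    obtain ⟨-, h1, h2, h3⟩ := hK u x hx
    obtain ⟨-, h4, h5, h6⟩ := hK v z hz
    have k1 := dist_tri (G := G) hn.reachable h4
    have k2 := dist_tri (G := G) hn.symm.reachable h1
    have k3 := hn.dist_le
    have k4 := hn.symm.dist_le
    have k5 := htt u v huv
    rcases abs_cases (tt u - tt v) with ⟨h, _⟩ | ⟨h, _⟩ <;> rw [h] at k5 <;> linarith
  have hwalk : ∀ {x z : V} (w : G.Walk x z), w.length < q → Near G r x z := by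
    intro x z w hlt
    refine ⟨w, le_trans ?_ hq⟩
    exact_mod_cast hlt.le
  refine ⟨B, P, ?_, ?_, ?_, ?_, ?_⟩
  · intro v
    exact thick_connected hr.le (hx₀ v) (hchain v)
  · intro u v _
    obtain ⟨p, hp1, hp2⟩ := hP1 s(u, v) u v rfl
    exact ⟨a u s(u, v), hsub u (ha u _), a v s(u, v), hsub v (ha v _), p, hp1, hp2⟩
  · rintro u v huv z ⟨x, hx, hxz⟩ z' ⟨x', hx', hxz'⟩ w
    by_contra hlt
    push Not at hlt
    exact hfarK u v huv x hx x' hx' (((hxz.trans (hwalk w hlt)).trans hxz'.symm).mono (by linarith))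
  · intro e _ e' _ hee z hz z' hz' w
    by_contra hlt
    push Not at hlt
    obtain ⟨-, u, -, h1, -⟩ := hP2 e z hz
    obtain ⟨-, u', -, h2, -⟩ := hP2 e' z' hz'
    apply hae u' e e' hee
    exact ((((haa u' u e).trans h1).trans (hwalk w hlt)).trans h2.symm).mono (by linarith)
  · rintro e _ v hve z hz z' ⟨x, hx, hxz⟩ w
    by_contra hlt
    push Not at hlt
    obtain ⟨hzy, u, hu, -, h1 | h1⟩ := hP2 e z hz
    · have huv : u ≠ v := by rintro rfl; exact hve hu
      exact hfarK u v huv (a u e) (ha u e) x hx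
        (((h1.trans (hwalk w hlt)).trans hxz.symm).mono (by linarith))
    · have hn := hxz.trans (hwalk w hlt).symm
      have k1 := dist_tri (G := G) hn.reachable hzy
      have k2 := hn.dist_le
      have k3 := (hK v x hx).1.2.1
      linarith

end Pool.Agent.MP_fd1949_co
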