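import Mathlib
import Pool.Agent.Lib.MP_fd1949_co.Small

/-!
# The net lemma: thin spheres around the points of a coloured net
-/

namespace Pool.Agent.MP_fd1949_co

open Relation

lemma exists_classes {V : Type} [Finite V] {G : SimpleGraph V} {X : Set V} {R : ℝ} {M : ℕ}
    (hR : 0 < R) (hcov : ∀ x, ∃ f : V → Fin M, ∀ u v, Near G (10 * R) x u →
      Near G (10 * R) x v → f u = f v → Near G R u v) :
    ∃ Y : ℕ → Set V, (∀ i, Y i ⊆ X) ∧
      (∀ i, ∀ y ∈ Y i, ∀ y' ∈ Y i, y ≠ y' → ¬ Near G (10 * R) y y') ∧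
      ∀ x ∈ X, ∃ i < M, ∃ y ∈ Y i, Near G R x y := by
  classical
  obtain ⟨T, hT⟩ := (Set.toFinite {T : Set V | T ⊆ X ∧ ∀ y ∈ T, ∀ y' ∈ T, y ≠ y' →
    ¬ Near G R y y'}).exists_maximal ⟨∅, by simp⟩
  obtain ⟨⟨hTX, hsep⟩, hmax⟩ := hT
  have hdom : ∀ x ∈ X, ∃ y ∈ T, Near G R x y := by
    intro x hx
    by_contra hcon
    push Not at hcon
    have hxT : x ∉ T := fun h => hcon x h (Near.refl hR.le x)
    have h1 : insert x T ∈ {T : Set V | T ⊆ X ∧ ∀ y ∈ T, ∀ y' ∈ T, y ≠ y' →
        ¬ Near G R y y'} := by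
      refine ⟨Set.insert_subset hx hTX, ?_⟩
      rintro y (rfl | hy) y' (rfl | hy') hne
      · exact absurd rfl hne
      · exact hcon y' hy'
      · exact fun h => hcon y hy h.symm
      · exact hsep y hy y' hy' hne
    exact hxT (hmax h1 (Set.subset_insert x T) (Set.mem_insert x T))
  have hcol : ∀ S : Finset V, (↑S : Set V) ⊆ T → ∃ c : V → ℕ, (∀ y ∈ S, c y < M) ∧
      ∀ y ∈ S, ∀ y' ∈ S, y ≠ y' → Near G (10 * R) y y' → c y ≠ c y' := by
    intro S
    induction S using Finset.induction_on with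
    | empty => intro _; exact ⟨fun _ => 0, by simp, by simp⟩
    | insert y S hyS ih =>
      intro hST
      rw [Finset.coe_insert] at hST
      obtain ⟨c, hc1, hc2⟩ := ih ((Set.subset_insert _ _).trans hST)
      obtain ⟨f, hf⟩ := hcov y
      set N : Finset V := S.filter fun y' => Near G (10 * R) y y' with hN
      have hyN : y ∉ N := fun h => hyS (Finset.mem_filter.1 h).1
      have hcard : (insert y N).card ≤ M := by
        have h1 : Set.InjOn f (↑(insert y N) : Set V) := by
          have hnear : ∀ u ∈ insert y N, Near G (10 * R) y u ∧ u ∈ T := by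
            intro u hu
            rcases Finset.mem_insert.1 hu with rfl | hu
            · exact ⟨Near.refl (by positivity) _, hST (Set.mem_insert _ _)⟩
            · exact ⟨(Finset.mem_filter.1 hu).2,
                hST (Set.mem_insert_of_mem _ (Finset.mem_filter.1 hu).1)⟩
          intro u hu v hv huv
          by_contra hne
          exact hsep u (hnear u hu).2 v (hnear v hv).2 hne
            (hf u v (hnear u hu).1 (hnear v hv).1 huv)
        have h2 := Finset.card_le_card_of_injOn (t := Finset.univ) f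
          (fun _ _ => Finset.mem_univ _) h1
        simpa using h2
      rw [Finset.card_insert_of_notMem hyN] at hcard
      have h3 : (N.image c).card < (Finset.range M).card := by
        rw [Finset.card_range]
        exact lt_of_le_of_lt Finset.card_image_le (by omega)
      obtain ⟨a, ha1, ha2⟩ := Finset.exists_mem_notMem_of_card_lt_card h3
      refine ⟨Function.update c y a, ?_, ?_⟩
      · intro z hz
        rcases Finset.mem_insert.1 hz with h | h
        · rw [h, Function.update_self]; exact Finset.mem_range.1 ha1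
        · have hzy : z ≠ y := fun h' => hyS (h' ▸ h)
          rw [Function.update_of_ne hzy]
          exact hc1 z h
      · have key : ∀ z ∈ S, Near G (10 * R) y z → a ≠ c z := by
          intro z hz hn h
          exact ha2 (Finset.mem_image.2 ⟨z, Finset.mem_filter.2 ⟨hz, hn⟩, h.symm⟩)
        intro u hu v hv hne hn
        rcases Finset.mem_insert.1 hu with h | h
        · rcases Finset.mem_insert.1 hv with h' | h'
          · exact absurd (h.trans h'.symm) hne
          · rw [h] at hne hn
            rw [h, Function.update_self, Function.update_of_ne hne.symm]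
            exact key v h' hn
        · have huy : u ≠ y := fun h' => hyS (h' ▸ h)
          rcases Finset.mem_insert.1 hv with h' | h'
          · rw [h'] at hn
            rw [h', Function.update_self, Function.update_of_ne huy]
            exact (key u h hn.symm).symm
          · have hvy : v ≠ y := fun h'' => hyS (h'' ▸ h')
            rw [Function.update_of_ne huy, Function.update_of_ne hvy]
            exact hc2 u h v h' hne hn
  have hfin : T.Finite := Set.toFinite T
  obtain ⟨c, hc1, hc2⟩ := hcol hfin.toFinset (by simp)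
  refine ⟨fun i => {y | y ∈ T ∧ c y = i}, fun i y hy => hTX hy.1, ?_, ?_⟩
  · rintro i y ⟨hy, hyi⟩ y' ⟨hy', hyi'⟩ hne hn
    exact hc2 y (by simpa using hy) y' (by simpa using hy') hne hn (hyi.trans hyi'.symm)
  · intro x hx
    obtain ⟨y, hy, hn⟩ := hdom x hx
    exact ⟨c y, hc1 y (by simpa using hy), y, ⟨hy, rfl⟩, hn⟩

/-- The union of the thin spheres of the first `j` classes. -/
def Lay {V : Type} (G : SimpleGraph V) (Y : ℕ → Set V) (t : ℕ → V → ℝ) (j : ℕ) (r : ℝ) : Set V :=
  {x | ∃ i < j, ∃ y ∈ Y i, x ∈ Shell G y (t i y) r}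

lemma layers (𝒳 : ∀ V : Type, SimpleGraph V → Set V → ℝ → ℝ → Prop) (k : ℕ) (hk : 0 < k)
    (hpos : ∀ (V : Type) (G : SimpleGraph V) (X : Set V) (R w : ℝ), 𝒳 V G X R w → 0 < R)
    (hs : ∀ κ : ℝ, 1 ≤ κ → ∃ κ' R₁ : ℝ, κ ≤ κ' ∧ ∀ (V : Type) [Finite V] (G : SimpleGraph V)
      (X : Set V) (R w : ℝ), R₁ ≤ R → 𝒳 V G X R w → w ≤ R / κ' → ∀ y ∈ X, ∃ t, R < t ∧
        t ≤ 2 * R ∧ Small G k (R / κ') (R / κ) (X ∩ Shell G y t (R / κ'))) (j : ℕ) :
    ∀ κ : ℝ, 1 ≤ κ → ∃ κ' R₁ : ℝ, κ ≤ κ' ∧ ∀ (V : Type) [Finite V] (G : SimpleGraph V)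
      (X : Set V) (R w : ℝ), R₁ ≤ R → 𝒳 V G X R w → w ≤ R / κ' → ∀ Y : ℕ → Set V,
        (∀ i, Y i ⊆ X) → (∀ i, ∀ y ∈ Y i, ∀ y' ∈ Y i, y ≠ y' → ¬ Near G (10 * R) y y') →
        ∃ t : ℕ → V → ℝ, (∀ i, ∀ y ∈ Y i, R < t i y ∧ t i y ≤ 2 * R) ∧
          Small G k (R / κ') (R / κ) (X ∩ Lay G Y t j (R / κ')) := by
  induction j with
  | zero =>
    intro κ hκ
    refine ⟨κ, 0, le_refl _, ?_⟩
    intro V _ G X R w _ hX _ Y _ _
    have hR := hpos V G X R w hX
    refine ⟨fun _ _ => 2 * R, fun _ _ _ => ⟨by linarith, le_refl _⟩, fun _ => 0, fun _ => hk, ?_⟩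
    rintro x y ⟨-, i, hi, -⟩
    exact absurd hi (by omega)
  | succ j ih =>
    intro κ hκ
    obtain ⟨κ₁, Ra, hκ₁, ha⟩ := hs (4 * κ) (by linarith)
    obtain ⟨κ₂, Rb, hκ₂, hb⟩ := ih (8 * κ₁) (by linarith)
    refine ⟨κ₂, max Ra Rb, by linarith, ?_⟩
    intro V _ G X R w hRR hX hw Y hYX hsep
    have hR := hpos V G X R w hX
    have h0 : (0 : ℝ) < κ := by linarith
    have h1 : (0 : ℝ) < κ₁ := by linarith
    have h2 : (0 : ℝ) < κ₂ := by linarith
    have e1 : R / (8 * κ₁) = R / κ₁ / 8 := by field_simp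
    have e2 : R / (4 * κ) = R / κ / 4 := by field_simp
    have e3 : R / κ₂ ≤ R / κ₁ / 8 := by
      rw [← e1]; exact div_le_div_of_nonneg_left hR.le (by positivity) hκ₂
    have e4 : R / κ₁ ≤ R / κ / 4 := by
      rw [← e2]; exact div_le_div_of_nonneg_left hR.le (by positivity) hκ₁
    have p0 : 0 < R / κ := by positivity
    have p1 : 0 < R / κ₁ := by positivity
    have p2 : 0 < R / κ₂ := by positivity
    have e5 : R / κ ≤ R := div_le_self hR.le hκ
    obtain ⟨t, ht1, ht2⟩ := hb V G X R w ((le_max_right _ _).trans hRR) hX hw Y hYX hsep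
    have ha' := ha V G X R w ((le_max_left _ _).trans hRR) hX (by linarith)
    choose! s hs1 hs2 hs3 using ha'
    refine ⟨fun i y => if i = j then s y else t i y, ?_, ?_⟩
    · intro i y hy
      dsimp only
      split_ifs with h
      · exact ⟨hs1 y (hYX i hy), hs2 y (hYX i hy)⟩
      · exact ht1 i y hy
    · have hB : Small G k (R / κ₁) (R / (4 * κ))
          (⋃ y ∈ Y j, X ∩ Shell G y (s y) (R / κ₂)) := by
        refine Small.iUnion hk ?_ ?_
        · intro y hy y' hy' x hx x' hx' hn
          by_contra hne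
          apply hsep j y hy y' hy' hne
          have a1 : Near G (3 * R) y x := by
            refine Near.symm (near_iff.2 ⟨hx.2.1, ?_⟩)
            have := hx.2.2.2
            have := hs2 y (hYX j hy)
            linarith
          have a2 : Near G (3 * R) x' y' := by
            refine near_iff.2 ⟨hx'.2.1, ?_⟩
            have := hx'.2.2.2
            have := hs2 y' (hYX j hy')
            linarith
          exact ((a1.trans hn).trans a2).mono (by linarith)
        · intro y hy
          exact (hs3 y (hYX j hy)).mono (le_refl _) (le_refl _)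
            (Set.inter_subset_inter_right _ (Shell.mono (by linarith)))
      have hU := Small.union p2.le (by positivity) (by positivity) (by linarith) ht2 hB
      refine hU.mono (le_refl _) (by linarith) ?_
      rintro x ⟨hx, i, hi, y, hy, hxs⟩
      by_cases hij : i = j
      · subst hij
        refine Or.inr (Set.mem_iUnion₂.2 ⟨y, hy, hx, ?_⟩)
        simpa using hxs
      · refine Or.inl ⟨hx, i, by omega, y, hy, ?_⟩
        simpa [hij] using hxs

/-- The net lemma. -/
theorem net_lemma (𝒳 : ∀ V : Type, SimpleGraph V → Set V → ℝ → ℝ → Prop) (k M : ℕ) (hk : 0 < k)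
    (hpos : ∀ (V : Type) (G : SimpleGraph V) (X : Set V) (R w : ℝ), 𝒳 V G X R w → 0 < R)
    (hcov : ∀ (V : Type) (G : SimpleGraph V) (X : Set V) (R w : ℝ), 𝒳 V G X R w →
      ∀ x, ∃ f : V → Fin M, ∀ u v, Near G (10 * R) x u →
      Near G (10 * R) x v → f u = f v → Near G R u v)
    (hs : ∀ κ : ℝ, 1 ≤ κ → ∃ κ' R₁ : ℝ, κ ≤ κ' ∧ ∀ (V : Type) [Finite V] (G : SimpleGraph V)
      (X : Set V) (R w : ℝ), R₁ ≤ R → 𝒳 V G X R w → w ≤ R / κ' → ∀ y ∈ X, ∃ t, R < t ∧
        t ≤ 2 * R ∧ Small G k (R / κ') (R / κ) (X ∩ Shell G y t (R / κ'))) :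
    ∃ κ' R₁ : ℝ, 1 ≤ κ' ∧ ∀ (V : Type) [Finite V] (G : SimpleGraph V) (X : Set V) (R w : ℝ),
      R₁ ≤ R → 𝒳 V G X R w → w ≤ R / κ' → Small G (k + 1) (R / κ') (4 * R) X := by
  classical
  obtain ⟨κ', R₁, hκ, hlay⟩ := layers 𝒳 k hk hpos hs M 1 (le_refl _)
  refine ⟨κ', R₁, hκ, ?_⟩
  intro V _ G X R w hRR hX hw
  have hR := hpos V G X R w hX
  have p1 : 0 < R / κ' := by positivity
  obtain ⟨Y, hYX, hsep, hdom⟩ := exists_classes (X := X) hR (hcov V G X R w hX)
  obtain ⟨t, ht, χ, hχ1, hχ2⟩ := hlay V G X R w hRR hX hw Y hYX hsep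
  rw [div_one] at hχ2
  set L := X ∩ Lay G Y t M (R / κ') with hL
  refine ⟨fun x => if x ∈ L then χ x else k, fun x => ?_, ?_⟩
  · dsimp only
    split_ifs
    · exact Nat.lt_succ_of_lt (hχ1 x)
    · exact Nat.lt_succ_self k
  · intro x y hx hxy
    by_cases hxL : x ∈ L
    · have key : y ∈ L ∧ ReflTransGen (Step G (R / κ') L χ) x y := by
        induction hxy with
        | refl => exact ⟨hxL, .refl⟩
        | @tail y z _ hyz ih =>
          obtain ⟨hy, hz, hc, hn⟩ := hyz
          dsimp only at hc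
          rw [if_pos ih.1] at hc
          by_cases hzL : z ∈ L
          · rw [if_pos hzL] at hc
            exact ⟨hzL, ih.2.tail ⟨ih.1, hzL, hc, hn⟩⟩
          · rw [if_neg hzL] at hc
            have := hχ1 y
            omega
      exact (hχ2 x y hxL key.2).mono (by linarith)
    · obtain ⟨i, hi, c, hc, hxc⟩ := hdom x hx
      have htc := ht i c hc
      have key : y ∉ L ∧ Near G (2 * R) y c ∧ (G.dist y c : ℝ) < t i c := by
        induction hxy with
        | refl =>
          refine ⟨hxL, hxc.mono (by linarith), ?_⟩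
          have := hxc.dist_le
          linarith
        | @tail y z _ hyz ih =>
          obtain ⟨hy, hz, hcc, hn⟩ := hyz
          dsimp only at hcc
          rw [if_neg ih.1] at hcc
          have hzL : z ∉ L := by
            intro hzL
            rw [if_pos hzL] at hcc
            have := hχ1 z
            omega
          have hzc : Near G (R / κ' + 2 * R) z c := hn.symm.trans ih.2.1
          have hlt : (G.dist z c : ℝ) < t i c := by
            by_contra hcon
            push Not at hcon
            apply hzL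
            refine ⟨hz, i, hi, c, hc, hzc.reachable, hcon, ?_⟩
            have h1 := dist_tri (G := G) hn.symm.reachable ih.2.1.reachable
            have h2 := hn.symm.dist_le
            linarith [ih.2.2]
          exact ⟨hzL, near_iff.2 ⟨hzc.reachable, by linarith⟩, hlt⟩
      exact (hxc.trans key.2.1.symm).mono (by linarith)

end Pool.Agent.MP_fd1949_co
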