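import Mathlib
import Pool.Agent.Lib.MP_fd1949_co.Build

/-!
# The strands lemma: many large components give a fat minor
-/

namespace Pool.Agent.MP_fd1949_co

open Relation

/-- Uniform covering property: balls of radius `κ * R` split into a bounded number of pieces of
diameter at most `R`. -/
def HasCov (𝒢 : ∀ V : Type, SimpleGraph V → Prop) : Prop :=
  ∀ κ : ℝ, ∃ M : ℕ, ∃ R₀ : ℝ, ∀ (V : Type) [Finite V] (G : SimpleGraph V), 𝒢 V G →
    ∀ R, R₀ ≤ R → ∀ x, ∃ f : V → Fin M, ∀ u v, Near G (κ * R) x u → Near G (κ * R) x v →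
      f u = f v → Near G R u v

lemma chain_reachable {V : Type} {G : SimpleGraph V} {r : ℝ} {X : Set V} {χ : V → ℕ} {x z : V}
    (h : ReflTransGen (Step G r X χ) x z) : G.Reachable x z := by
  induction h with
  | refl => exact SimpleGraph.Reachable.refl _
  | tail _ h ih => exact ih.trans h.2.2.2.reachable

lemma exists_level {V : Type} {G : SimpleGraph V} {r : ℝ} {X : Set V} {χ : V → ℕ} {x z : V}
    (hr : 0 ≤ r) (h : ReflTransGen (Step G r X χ) x z) (τ : ℝ) (h0 : 0 ≤ τ)
    (hτ : τ ≤ G.dist x z) :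
    ∃ a, ReflTransGen (Step G r X χ) x a ∧ τ ≤ G.dist x a ∧ (G.dist x a : ℝ) ≤ τ + r := by
  induction h with
  | refl =>
    refine ⟨x, .refl, hτ, ?_⟩
    rw [SimpleGraph.dist_self]
    push_cast
    linarith
  | @tail y z hxy hyz ih =>
    by_cases h : τ ≤ G.dist x y
    · exact ih h
    · push Not at h
      refine ⟨z, hxy.tail hyz, hτ, ?_⟩
      have h1 := dist_tri (G := G) (chain_reachable hxy) hyz.2.2.2.reachable
      have h2 := hyz.2.2.2.dist_le
      linarith

theorem strands {W : Type} [Finite W] (H : SimpleGraph W) (q : ℕ)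
    (𝒢 : ∀ V : Type, SimpleGraph V → Prop) (hcov : HasCov 𝒢)
    (hfree : ∀ (V : Type) [Finite V] (G : SimpleGraph V), 𝒢 V G → FatMinorFree G H q) :
    ∀ κ : ℝ, 1 ≤ κ → ∃ κ' R₁ : ℝ, κ ≤ κ' ∧ ∀ (V : Type) [Finite V] (G : SimpleGraph V), 𝒢 V G →
      ∀ (y : V) (t w R : ℝ), 0 < R → R₁ ≤ R → 4 * R ≤ t → w ≤ R / κ' → ∀ y' ∈ Shell G y t w,
        ∃ t', R < t' ∧ t' ≤ 2 * R ∧
          Small G 1 (R / κ') (R / κ) (Shell G y t w ∩ Shell G y' t' (R / κ')) := by
  classical
  have := Fintype.ofFinite W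
  intro κ hκ
  have hκ0 : (0 : ℝ) < κ := by linarith
  set N : ℕ := Fintype.card (Sym2 W) with hN
  set c : ℝ := κ * (N + 1) with hc
  have hNpos : (0 : ℝ) ≤ N := Nat.cast_nonneg N
  have hc1 : κ ≤ c := by rw [hc]; nlinarith
  have hc0 : 0 < c := by linarith
  obtain ⟨M, R₀, hM⟩ := hcov (2048 * c)
  set n : ℕ := Fintype.card (Sym2 W → Fin M × Fin M) * Fintype.card W + 1 with hn
  have hnpos : (0 : ℝ) < n := by rw [hn]; positivity
  set κ' : ℝ := 100 * n + 51200 * c with hκ'
  have hκ'0 : 0 < κ' := by positivity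
  refine ⟨κ', |R₀| * 512 * c + (q + 1) * κ' + 32 * c, by linarith, ?_⟩
  intro V _ G hG y t w R hR hR₁ ht hw y' hy'
  by_contra hcon
  push Not at hcon
  -- the scales
  set r : ℝ := R / κ' with hr
  set η : ℝ := R / (32 * c) with hη
  set ρ : ℝ := η / 16 with hρ
  have hr0 : 0 < r := by positivity
  have hη0 : 0 < η := by positivity
  have hρ0 : 0 < ρ := by positivity
  have e1 : 512 * c * ρ = R := by rw [hρ, hη]; field_simp; norm_num
  have e2 : κ' * r = R := by rw [hr]; field_simp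
  have e3 : 32 * c * η = R := by rw [hη]; field_simp
  have hqr : (q : ℝ) ≤ r := by
    have h1 : (q : ℝ) * κ' ≤ R := by
      have : 0 ≤ |R₀| * 512 * c := by positivity
      nlinarith
    rw [hr, le_div_iff₀ hκ'0]
    exact h1
  have hR₀ρ : R₀ ≤ ρ := by
    have h1 : |R₀| * (512 * c) ≤ ρ * (512 * c) := by
      have h2 : 0 ≤ (q + 1) * κ' := by positivity
      have h3 : 0 ≤ 32 * c := by positivity
      nlinarith
    have h4 := le_of_mul_le_mul_right h1 (by positivity)
    exact (le_abs_self _).trans h4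
  have hη1 : 1 ≤ η := by
    rw [hη, le_div_iff₀ (by positivity)]
    have h1 : 0 ≤ |R₀| * 512 * c := by positivity
    have h2 : 0 ≤ (q + 1) * κ' := by positivity
    linarith
  have hrρ : 100 * r ≤ ρ := by
    have h1 : 51200 * c * r ≤ R := by
      have : 0 ≤ 100 * (n : ℝ) * r := by positivity
      nlinarith
    have h2 : (512 * c) * (100 * r) ≤ (512 * c) * ρ := by nlinarith
    exact le_of_mul_le_mul_left h2 (by positivity)
  have hrn : 100 * r ≤ R / n := by
    rw [le_div_iff₀ hnpos]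
    have : 0 ≤ 51200 * c * r := by positivity
    nlinarith
  have hηR : 32 * η ≤ R := by nlinarith
  -- the strands
  set T : Fin n → ℝ := fun i => R + (i + 1) * (R / n) with hT
  have hT1 : ∀ i, R < T i := fun i => by
    have : 0 < ((i : ℕ) + 1 : ℝ) * (R / n) := by positivity
    simp only [hT]; linarith
  have hT2 : ∀ i, T i ≤ 2 * R := fun i => by
    have h1 : ((i : ℕ) + 1 : ℝ) ≤ n := by exact_mod_cast i.isLt
    have h2 : ((i : ℕ) + 1 : ℝ) * (R / n) ≤ n * (R / n) :=
      mul_le_mul_of_nonneg_right h1 (by positivity)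
    have h3 : (n : ℝ) * (R / n) = R := by field_simp
    simp only [hT]; linarith
  set X : Fin n → Set V := fun i => Shell G y t w ∩ Shell G y' (T i) r with hX
  have hbad : ∀ i, ∃ x z, x ∈ X i ∧ ReflTransGen (Step G r (X i) (fun _ => 0)) x z ∧
      R / κ < (G.dist x z : ℝ) := by
    intro i
    have h := hcon (T i) (hT1 i) (hT2 i)
    by_contra hc'
    push Not at hc'
    apply h
    refine ⟨fun _ => 0, fun _ => Nat.one_pos, fun x z hx hxz => ?_⟩
    exact near_iff.2 ⟨chain_reachable hxz, hc' x z hx hxz⟩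
  choose x₀ z₀ hx₀ hxz₀ hdist using hbad
  set idx : Sym2 W → ℕ := fun e => (Fintype.equivFin (Sym2 W) e : ℕ) with hidx
  have hidxlt : ∀ e, idx e < N := fun e => (Fintype.equivFin (Sym2 W) e).isLt
  have hidxinj : ∀ e e', idx e = idx e' → e = e' := fun e e' h =>
    (Fintype.equivFin (Sym2 W)).injective (Fin.ext h)
  have hlev : ∀ i e, ∃ a, ReflTransGen (Step G r (X i) (fun _ => 0)) (x₀ i) a ∧
      (idx e : ℝ) * (R / c) ≤ G.dist (x₀ i) a ∧
      (G.dist (x₀ i) a : ℝ) ≤ (idx e : ℝ) * (R / c) + r := by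
    intro i e
    refine exists_level hr0.le (hxz₀ i) _ (by positivity) (le_trans ?_ (hdist i).le)
    have h1 : (idx e : ℝ) ≤ N + 1 := by
      have : (idx e : ℝ) < N := by exact_mod_cast hidxlt e
      linarith
    have h2 : R / κ = (N + 1) * (R / c) := by rw [hc]; field_simp
    rw [h2]
    exact mul_le_mul_of_nonneg_right h1 (by positivity)
  choose a ha1 ha2 ha3 using hlev
  have haX : ∀ i e, a i e ∈ X i := fun i e => (chain_mem (hx₀ i) (ha1 i e)).1
  set k : ℕ := ⌈η⌉₊ with hk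
  have hk1 : η ≤ k := Nat.le_ceil η
  have hk2 : (k : ℝ) ≤ 2 * η := by
    have := Nat.ceil_lt_add_one hη0.le
    rw [← hk] at this
    linarith
  have hgeo : ∀ i e, ∃ z, ∃ w : G.Walk (a i e) z, w.length = k ∧
      G.dist z y + k = G.dist (a i e) y ∧ ∀ u ∈ w.support, G.Reachable (a i e) u ∧
        G.dist (a i e) u ≤ k ∧ G.dist (a i e) u + G.dist u y = G.dist (a i e) y := by
    intro i e
    refine exists_geo (haX i e).1.1 k ?_
    have h1 := (haX i e).1.2.1
    have : (k : ℝ) ≤ G.dist (a i e) y := by linarith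
    exact_mod_cast this
  choose b wb hwb1 hwb2 hwb3 using hgeo
  obtain ⟨f, hf⟩ := hM V G hG ρ hR₀ρ y'
  have e4 : 2048 * c * ρ = 4 * R := by linarith
  rw [e4] at hf
  have hya : ∀ i e, Near G (3 * R) y' (a i e) := by
    intro i e
    obtain ⟨-, g1, -, g3⟩ := haX i e
    refine Near.symm (near_iff.2 ⟨g1, ?_⟩)
    have := hT2 i
    linarith
  have hyb : ∀ i e, Near G (4 * R) y' (b i e) := by
    intro i e
    have h1 : Near G (2 * η) (a i e) (b i e) := ⟨wb i e, by rw [hwb1]; exact hk2⟩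
    exact ((hya i e).trans h1).mono (by linarith)
  set F : Fin n → (Sym2 W → Fin M × Fin M) := fun i e => (f (a i e), f (b i e)) with hF
  have hpig : Fintype.card (Sym2 W → Fin M × Fin M) * Fintype.card W < Fintype.card (Fin n) := by
    rw [Fintype.card_fin]; omega
  obtain ⟨ty, hty⟩ := Fintype.exists_lt_card_fiber_of_mul_lt_card F hpig
  have hcard : Fintype.card W ≤ Fintype.card {i // F i = ty} := by
    rw [Fintype.card_subtype]
    exact hty.le
  obtain ⟨ι⟩ := Function.Embedding.nonempty_of_card_le hcard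
  have hfa : ∀ u v e, f (a (ι u) e) = f (a (ι v) e) ∧ f (b (ι u) e) = f (b (ι v) e) := by
    intro u v e
    have h := (ι u).2.trans (ι v).2.symm
    have h' := congrFun h e
    simp only [hF, Prod.mk.injEq] at h'
    exact h'
  apply hfree V G hG
  refine build_minor H q y y' t r η ρ
    (fun v => {u | ReflTransGen (Step G r (X (ι v)) (fun _ => 0)) (x₀ (ι v)) u})
    (fun v => T (ι v)) (fun v => x₀ (ι v)) (fun v => a (ι v)) (fun v => b (ι v))
    hr0 hqr hrρ (by linarith) ?_ ?_ ?_ ?_ ?_ ?_ ?_ ?_ ?_ ?_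
  · intro v x hx
    obtain ⟨⟨⟨g1, g2, g3⟩, g4⟩, -⟩ := chain_mem (hx₀ (ι v)) hx
    exact ⟨⟨g1, g2, by linarith⟩, g4⟩
  · intro u v huv
    have hne : ((ι u : Fin n) : ℕ) ≠ ((ι v : Fin n) : ℕ) := by
      intro h
      exact huv (ι.injective (Subtype.ext (Fin.ext h)))
    have h1 : T (ι u) - T (ι v) = (((ι u : Fin n) : ℕ) - ((ι v : Fin n) : ℕ) : ℝ) * (R / n) := by
      simp only [hT]; ring
    have h2 : (1 : ℝ) ≤ |(((ι u : Fin n) : ℕ) - ((ι v : Fin n) : ℕ) : ℝ)| := by
      have h3 : (((ι u : Fin n) : ℕ) : ℤ) - ((ι v : Fin n) : ℕ) ≠ 0 := by omega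
      have h4 := Int.one_le_abs h3
      exact_mod_cast h4
    show 100 * r ≤ |T (ι u) - T (ι v)|
    rw [h1, abs_mul, abs_of_pos (show 0 < R / n by positivity)]
    nlinarith [show 0 < R / n by positivity]
  · intro v
    exact ReflTransGen.refl
  · intro v x hx
    have hx' : ReflTransGen (Step G r (X (ι v)) (fun _ => 0)) (x₀ (ι v)) x := hx
    clear hx
    induction hx' with
    | refl => exact .refl
    | @tail u z hu huz ih => exact ih.tail ⟨hu, hu.tail huz, huz.2.2.2⟩
  · intro v e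
    exact ha1 (ι v) e
  · intro v e e' hee hn'
    have hr1 := chain_reachable (ha1 (ι v) e)
    have hr2 := chain_reachable (ha1 (ι v) e')
    have k1 := dist_tri (G := G) hr1 hn'.reachable
    have k2 := dist_tri (G := G) hr2 hn'.symm.reachable
    have k3 := hn'.dist_le
    have k4 := hn'.symm.dist_le
    have k5 := ha2 (ι v) e
    have k6 := ha3 (ι v) e
    have k7 := ha2 (ι v) e'
    have k8 := ha3 (ι v) e'
    have hRc : R / c = 32 * η := by rw [hη]; field_simp
    rw [hRc] at k5 k6 k7 k8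
    have hne : idx e ≠ idx e' := fun h => hee (hidxinj _ _ h)
    rcases lt_or_gt_of_ne hne with h | h
    · have h1 : (idx e : ℝ) + 1 ≤ idx e' := by exact_mod_cast h
      nlinarith
    · have h1 : (idx e' : ℝ) + 1 ≤ idx e := by exact_mod_cast h
      nlinarith
  · intro u v e
    exact hf _ _ ((hya (ι u) e).mono (by linarith)) ((hya (ι v) e).mono (by linarith))
      (hfa u v e).1
  · intro u v e
    exact hf _ _ (hyb (ι u) e) (hyb (ι v) e) (hfa u v e).2
  · intro v e
    have h1 : ((G.dist (b (ι v) e) y : ℕ) : ℝ) + k = G.dist (a (ι v) e) y := by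
      exact_mod_cast hwb2 (ι v) e
    show (G.dist (b (ι v) e) y : ℝ) + η ≤ G.dist (a (ι v) e) y
    linarith
  · intro v e
    refine ⟨wb (ι v) e, fun z hz => ?_⟩
    obtain ⟨g1, g2, g3⟩ := hwb3 (ι v) e z hz
    refine ⟨g1, ?_, by exact_mod_cast g3⟩
    have : (G.dist (a (ι v) e) z : ℝ) ≤ k := by exact_mod_cast g2
    linarith

end Pool.Agent.MP_fd1949_co
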