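import Mathlib
import Pool.Agent.Lib.MP_fd1949_co.Net
import Pool.Agent.Lib.MP_fd1949_co.Strands

/-!
# Doubling graphs without a fat minor have asymptotic dimension at most two
-/

namespace Pool.Agent.MP_fd1949_co

open Relation

lemma doubling_iter {V : Type} {G : SimpleGraph V} {K : ℕ} {R₀ : ℝ} (hG : DoublingFrom G K R₀)
    (j : ℕ) : ∀ R : ℝ, 0 ≤ R → R₀ ≤ R → ∀ x, ∃ s : Finset V, s.card ≤ K ^ j ∧
      ∀ u, Near G (2 ^ j * R) x u → ∃ z ∈ s, Near G R z u := by
  classical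
  induction j with
  | zero =>
    intro R _ _ x
    exact ⟨{x}, by simp, fun u hu => ⟨x, by simp, by simpa using hu⟩⟩
  | succ j ih =>
    intro R hR hR₀ x
    have h1 : (1 : ℝ) ≤ 2 ^ j := one_le_pow₀ (by norm_num)
    have h2 : R ≤ 2 ^ j * R := by nlinarith
    obtain ⟨s, hs1, hs2⟩ := hG (2 ^ j * R) (by linarith) x
    choose g hg1 hg2 using ih R hR hR₀
    refine ⟨s.biUnion g, ?_, ?_⟩
    · refine Finset.card_biUnion_le.trans ?_
      refine (Finset.sum_le_card_nsmul s _ (K ^ j) fun z _ => hg1 z).trans ?_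
      rw [smul_eq_mul, pow_succ, mul_comm]
      exact Nat.mul_le_mul_left _ hs1
    · intro u hu
      obtain ⟨z, hz, hzu⟩ := hs2 u (by rw [← mul_assoc, ← pow_succ']; exact hu)
      obtain ⟨z', hz', hzu'⟩ := hg2 z u hzu
      exact ⟨z', Finset.mem_biUnion.2 ⟨z, hz, hz'⟩, hzu'⟩

lemma hasCov_of_doubling {𝒢 : ∀ V : Type, SimpleGraph V → Prop} {K : ℕ} {R₀ : ℝ}
    (h : ∀ V G, 𝒢 V G → DoublingFrom G K R₀) : HasCov 𝒢 := by
  classical
  intro κ
  obtain ⟨j, hj⟩ := pow_unbounded_of_one_lt (2 * κ) (one_lt_two : (1 : ℝ) < 2)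
  refine ⟨K ^ j + 1, 2 * |R₀|, ?_⟩
  intro V _ G hG R hR x
  have hR0 : 0 ≤ R := by linarith [abs_nonneg R₀]
  obtain ⟨s, hs1, hs2⟩ := doubling_iter (h V G hG) j (R / 2) (by linarith)
    (by linarith [le_abs_self R₀]) x
  have hcard : Fintype.card {z // z ∈ s} ≤ Fintype.card (Fin (K ^ j + 1)) := by
    rw [Fintype.card_coe, Fintype.card_fin]; omega
  obtain ⟨ι⟩ := Function.Embedding.nonempty_of_card_le hcard
  have hex : ∀ u, Near G (κ * R) x u → ∃ z ∈ s, Near G (R / 2) z u := by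
    intro u hu
    refine hs2 u (hu.mono ?_)
    nlinarith
  refine ⟨fun u => if h : ∃ z ∈ s, Near G (R / 2) z u then ι ⟨h.choose, h.choose_spec.1⟩ else 0,
    fun u v hu hv huv => ?_⟩
  have h1 := hex u hu
  have h2 := hex v hv
  dsimp only at huv
  rw [dif_pos h1, dif_pos h2] at huv
  have h3 : h1.choose = h2.choose := congrArg Subtype.val (ι.injective huv)
  have h4 := h1.choose_spec.2
  have h5 := h2.choose_spec.2
  rw [← h3] at h5
  exact (h4.symm.trans h5).mono (by linarith)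

lemma families_of_small {V : Type} {G : SimpleGraph V} {r r' D : ℝ} {d : ℕ} (hrr : r ≤ r')
    (h : Small G (d + 1) r' D Set.univ) :
    ∃ 𝒰 : Fin (d + 1) → Set (Set V),
      (∀ x, ∃ i, ∃ A ∈ 𝒰 i, x ∈ A) ∧ ∀ i, Disj G r (𝒰 i) ∧ Bdd G D (𝒰 i) := by
  obtain ⟨χ, h1, h2⟩ := h
  have hsymm : ∀ {x y}, ReflTransGen (Step G r' Set.univ χ) x y →
      ReflTransGen (Step G r' Set.univ χ) y x := by
    intro x y hxy
    induction hxy with
    | refl => exact .refl
    | tail _ huv ih =>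
      exact (ReflTransGen.single ⟨huv.2.1, huv.1, huv.2.2.1.symm, huv.2.2.2.symm⟩).trans ih
  refine ⟨fun i => {A | ∃ x, χ x = i ∧ A = {z | ReflTransGen (Step G r' Set.univ χ) x z}},
    fun x => ⟨⟨χ x, h1 x⟩, _, ⟨x, rfl, rfl⟩, ReflTransGen.refl⟩, fun i => ⟨?_, ?_⟩⟩
  · rintro A ⟨a, ha, rfl⟩ B ⟨b, hb, rfl⟩ hne x hx y hy hn
    apply hne
    have hx' : ReflTransGen (Step G r' Set.univ χ) a x := hx
    have hy' : ReflTransGen (Step G r' Set.univ χ) b y := hy
    have hxa := (chain_mem (Set.mem_univ a) hx').2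
    have hyb := (chain_mem (Set.mem_univ b) hy').2
    have hstep : Step G r' Set.univ χ x y :=
      ⟨trivial, trivial, by rw [← hxa, ← hyb, ha, hb], hn.mono hrr⟩
    have hab : ReflTransGen (Step G r' Set.univ χ) a b := (hx'.tail hstep).trans (hsymm hy')
    ext z
    exact ⟨fun hz => (hsymm hab).trans hz, fun hz => hab.trans hz⟩
  · rintro A ⟨a, ha, rfl⟩ x hx y hy
    exact h2 x y trivial ((hsymm hx).trans hy)

theorem doubling_asdim (q : ℕ) {W : Type} [Finite W] (H : SimpleGraph W) (K : ℕ) (R₀ : ℝ) :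
    ∃ C : ℝ, 0 < C ∧ AsdimWith (fun _ G => FatMinorFree G H q ∧ DoublingFrom G K R₀) 2
      (fun r => C * (r + 1)) := by
  set 𝒢 : ∀ V : Type, SimpleGraph V → Prop :=
    fun _ G => FatMinorFree G H q ∧ DoublingFrom G K R₀ with h𝒢
  have hcov : HasCov 𝒢 := hasCov_of_doubling fun V G h => h.2
  obtain ⟨M, Rc, hM⟩ := hcov 10
  -- first net lemma, in thin spheres
  obtain ⟨κa, Ra, hκa, ha⟩ := net_lemma
    (fun V G X R w => Finite V ∧ 0 < R ∧ Rc ≤ R ∧ 𝒢 V G ∧ ∃ y t, X = Shell G y t w ∧ 4 * R ≤ t)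
    1 M one_pos (fun V G X R w h => h.2.1)
    (fun V G X R w ⟨hf, hR, hRc, hG, _⟩ => by
      have := hf
      exact hM V G hG R hRc)
    (by
      intro κ hκ
      obtain ⟨κ', R₁, h1, h2⟩ := strands H q 𝒢 hcov (fun V _ G hG => hG.1) κ hκ
      refine ⟨κ', R₁, h1, ?_⟩
      rintro V _ G X R w hRR ⟨-, hR, -, hG, y, t, rfl, ht⟩ hw y' hy'
      exact h2 V G hG y t w R hR hRR ht hw y' hy')
  -- second net lemma, in the whole graph
  obtain ⟨κb, Rb, hκb, hb⟩ := net_lemma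
    (fun V G X R _ => Finite V ∧ 0 < R ∧ Rc ≤ R ∧ 𝒢 V G ∧ X = Set.univ)
    2 M two_pos (fun V G X R w h => h.2.1)
    (fun V G X R w ⟨hf, hR, hRc, hG, _⟩ => by
      have := hf
      exact hM V G hG R hRc)
    (by
      intro κ hκ
      refine ⟨4 * κ * κa, 4 * κ * (|Ra| + |Rc|), by nlinarith, ?_⟩
      rintro V _ G X R w hRR ⟨hf, hR, hRc, hG, rfl⟩ hw y hy
      have hκ0 : (0 : ℝ) < κ := by linarith
      have hκa0 : (0 : ℝ) < κa := by linarith
      have h4 : |Ra| + |Rc| ≤ R / (4 * κ) := by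
        rw [le_div_iff₀ (by positivity)]
        linarith
      have h5 : R / (4 * κ) ≤ R / 4 := by
        apply div_le_div_of_nonneg_left hR.le (by norm_num) (by linarith)
      have h6 : R / (4 * κ) / κa = R / (4 * κ * κa) := by rw [div_div]
      have h7 : 4 * (R / (4 * κ)) = R / κ := by field_simp
      refine ⟨2 * R, by linarith, le_refl _, ?_⟩
      have h8 := ha V G (Shell G y (2 * R) (R / (4 * κ * κa))) (R / (4 * κ))
        (R / (4 * κ * κa)) (by linarith [le_abs_self Ra, abs_nonneg Rc])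
        ⟨hf, by positivity, by linarith [le_abs_self Rc, abs_nonneg Ra], hG, y, 2 * R, rfl,
          by linarith⟩ (by rw [h6])
      rw [h6, h7] at h8
      exact h8.mono (le_refl _) (le_refl _) Set.inter_subset_right)
  -- conclusion
  refine ⟨4 * (κb + |Rb| + |Rc| + 1), by positivity, ?_⟩
  intro V _ G hG r hr
  have hκb0 : (0 : ℝ) < κb := by linarith
  set R : ℝ := κb * r + |Rb| + |Rc| with hR
  have hR0 : 0 < R := by positivity
  have hsm := hb V G Set.univ R 0 (by linarith [le_abs_self Rb, abs_nonneg Rc, mul_pos hκb0 hr])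
    ⟨inferInstance, hR0, by linarith [le_abs_self Rc, abs_nonneg Rb, mul_pos hκb0 hr], hG, rfl⟩
    (by positivity)
  refine families_of_small ?_ (hsm.mono (le_refl _) ?_ (Set.Subset.refl _))
  · rw [le_div_iff₀ hκb0]
    have := abs_nonneg Rb
    have := abs_nonneg Rc
    linarith
  · have h1 := abs_nonneg Rb
    have h2 := abs_nonneg Rc
    dsimp only
    nlinarith

end Pool.Agent.MP_fd1949_co
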